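import Pool.Agent.Helper27.BG.St1

/-!
# Project BG, module FRM: the prime form is nearly diagonal
-/

set_option autoImplicit false

namespace Pool.Agent.Helper27.BG

open Finset
open Pool.Agent.Helper90.MT (lam mat wt szA prt szU VV DD piDD Ok EqD Avd HH Ytil offD MP MD TT)

/-! ### product expansions -/

private theorem prod_sum2_FRM {α κ : Type} [Fintype α] [DecidableEq α] [Fintype κ] [DecidableEq κ]
    (F : α → κ → κ → ℝ) : ∏ i, ∑ o, ∑ o', F i o o' =
      ∑ b : α → κ, ∑ b' : α → κ, ∏ i, F i (b i) (b' i) := by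
  have h1 := Finset.prod_univ_sum (fun _ : α => (univ : Finset κ)) (fun i o => ∑ o', F i o o')
  rw [h1]
  simp only [Fintype.piFinset_univ]
  refine sum_congr rfl fun b _ => ?_
  have h2 := Finset.prod_univ_sum (fun _ : α => (univ : Finset κ)) (fun i o' => F i (b i) o')
  rw [h2]
  simp only [Fintype.piFinset_univ]

private theorem var2_FRM {α κ : Type} [Fintype α] [DecidableEq α] [Fintype κ] [DecidableEq κ]
    (M T : α → κ → κ → ℝ) (Y Y' : (α → κ) → ℝ) :
    ∑ b : α → κ, ∑ b' : α → κ, (∏ i, M i (b i) (b' i)) *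
      ((∑ a : α → κ, (∏ i, T i (b i) (a i)) * Y a) *
      (∑ a : α → κ, (∏ i, T i (b' i) (a i)) * Y' a)) =
    ∑ a : α → κ, ∑ a' : α → κ,
      (∏ i, ∑ o, ∑ o', M i o o' * T i o (a i) * T i o' (a' i)) * (Y a * Y' a') := by
  have h1 : ∀ b b' : α → κ, (∏ i, M i (b i) (b' i)) *
      ((∑ a : α → κ, (∏ i, T i (b i) (a i)) * Y a) *
      (∑ a : α → κ, (∏ i, T i (b' i) (a i)) * Y' a)) =
      ∑ a : α → κ, ∑ a' : α → κ,
        (∏ i, M i (b i) (b' i) * T i (b i) (a i) * T i (b' i) (a' i)) * (Y a * Y' a') := by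
    intro b b'
    rw [sum_mul_sum, mul_sum]
    refine sum_congr rfl fun a _ => ?_
    rw [mul_sum]
    refine sum_congr rfl fun a' _ => ?_
    rw [prod_mul_distrib, prod_mul_distrib]
    ring
  rw [Finset.sum_congr rfl fun b _ => Finset.sum_congr rfl fun b' _ => h1 b b']
  simp only [prod_sum2_FRM, sum_mul]
  calc ∑ b : α → κ, ∑ b' : α → κ, ∑ a : α → κ, ∑ a' : α → κ,
        (∏ i, M i (b i) (b' i) * T i (b i) (a i) * T i (b' i) (a' i)) * (Y a * Y' a')
      = ∑ b : α → κ, ∑ a : α → κ, ∑ a' : α → κ, ∑ b' : α → κ,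
        (∏ i, M i (b i) (b' i) * T i (b i) (a i) * T i (b' i) (a' i)) * (Y a * Y' a') := by
        refine sum_congr rfl fun b _ => ?_
        rw [sum_comm]
        exact sum_congr rfl fun a _ => sum_comm
    _ = ∑ a : α → κ, ∑ a' : α → κ, ∑ b : α → κ, ∑ b' : α → κ,
        (∏ i, M i (b i) (b' i) * T i (b i) (a i) * T i (b' i) (a' i)) * (Y a * Y' a') := by
        rw [sum_comm]
        exact sum_congr rfl fun a _ => sum_comm

private theorem abs_prod_FRM {α : Type} [DecidableEq α] (s : Finset α) (x y : α → ℝ) :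
    |∏ i ∈ s, (x i + y i) - ∏ i ∈ s, x i| ≤
      ∏ i ∈ s, (|x i| + |y i|) - ∏ i ∈ s, |x i| := by
  induction s using Finset.induction_on with
  | empty => simp
  | insert j s hj ih =>
    rw [prod_insert hj, prod_insert hj, prod_insert hj, prod_insert hj]
    have h1 : |∏ i ∈ s, (x i + y i)| ≤ ∏ i ∈ s, (|x i| + |y i|) := by
      rw [abs_prod]
      exact prod_le_prod (fun i _ => abs_nonneg _) fun i _ => abs_add_le _ _
    have h2 : (x j + y j) * ∏ i ∈ s, (x i + y i) - x j * ∏ i ∈ s, x i =
        x j * (∏ i ∈ s, (x i + y i) - ∏ i ∈ s, x i) + y j * ∏ i ∈ s, (x i + y i) := by ring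
    rw [h2]
    refine (abs_add_le _ _).trans ?_
    rw [abs_mul, abs_mul]
    have h3 := mul_le_mul_of_nonneg_left ih (abs_nonneg (x j))
    have h4 := mul_le_mul_of_nonneg_left h1 (abs_nonneg (y j))
    linarith

/-! ### the local matrices -/

section Loc

variable {ι : Type} [Fintype ι] [DecidableEq ι]

/-- the local matrix of the form in the new variables -/
private noncomputable def QQ (m : ι) (p : ℕ) (o o' : Option ι) : ℝ :=
  ∑ x, ∑ y, MP m p x y * TT p x o * TT p y o'

/-- restriction to the values different from `some m` -/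
private noncomputable def Qr (m : ι) (p : ℕ) (o o' : Option ι) : ℝ :=
  if o ≠ some m ∧ o' ≠ some m then QQ m p o o' else 0

/-- the diagonal matrix -/
private noncomputable def DL (m : ι) (p : ℕ) : Option ι → Option ι → ℝ
  | none, none => 1
  | none, some _ => 0
  | some _, none => 0
  | some h, some h' => if h = h' ∧ h ≠ m then 1 / (p : ℝ) else 0

/-- the bound of the difference -/
private noncomputable def BN (p : ℕ) : Option ι → Option ι → ℝ
  | none, none => 0
  | none, some _ => 2 / (p : ℝ) ^ 2
  | some _, none => 2 / (p : ℝ) ^ 2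
  | some _, some _ => 3 / (p : ℝ) ^ 2

private theorem QQ_nn (m : ι) (p : ℕ) : QQ m p none none = 1 := by
  unfold QQ
  rw [Fintype.sum_option, Fintype.sum_option]
  simp [MP, TT]

private theorem QQ_ns (m : ι) (p : ℕ) (h : ι) (hm : h ≠ m) :
    QQ m p none (some h) = 1 / p - 1 / ((p : ℝ) - 1) := by
  unfold QQ
  rw [Fintype.sum_option, Fintype.sum_option]
  simp only [MP, TT, mul_zero, zero_mul, Finset.sum_const_zero, add_zero, mul_one, one_mul]
  have h1 : ∑ x : ι, (if x = m then 0 else 1 / ((p : ℝ) - 1)) * (if x = h then -1 else 0) =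
      -(1 / ((p : ℝ) - 1)) := by
    rw [Finset.sum_eq_single h]
    · rw [if_neg hm, if_pos rfl]; ring
    · intro x _ hx
      rw [if_neg hx, mul_zero]
    · intro hh
      exact absurd (mem_univ h) hh
  rw [h1]
  ring

private theorem QQ_sn (m : ι) (p : ℕ) (h : ι) (hm : h ≠ m) :
    QQ m p (some h) none = 1 / p - 1 / ((p : ℝ) - 1) := by
  unfold QQ
  rw [Fintype.sum_option, Fintype.sum_option]
  have h0 : ∀ x : ι, ∑ y : Option ι, MP m p (some x) y * TT p (some x) (some h) * TT p y none =
      (if x = m then 0 else 1 / ((p : ℝ) - 1)) * (if x = h then -1 else 0) := by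
    intro x
    rw [Fintype.sum_option]
    simp only [MP, TT, mul_zero, Finset.sum_const_zero, add_zero, mul_one]
  rw [Finset.sum_congr rfl fun x _ => h0 x]
  simp only [MP, TT, mul_zero, Finset.sum_const_zero, add_zero, mul_one, one_mul]
  have h1 : ∑ x : ι, (if x = m then 0 else 1 / ((p : ℝ) - 1)) * (if x = h then -1 else 0) =
      -(1 / ((p : ℝ) - 1)) := by
    rw [Finset.sum_eq_single h]
    · rw [if_neg hm, if_pos rfl]; ring
    · intro x _ hx
      rw [if_neg hx, mul_zero]
    · intro hh
      exact absurd (mem_univ h) hh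
  rw [h1]
  ring

private theorem QQ_ss (m : ι) (p : ℕ) (h h' : ι) (hm : h ≠ m) (hm' : h' ≠ m) :
    QQ m p (some h) (some h') = 1 / (p : ℝ) ^ 2 - 2 / ((p : ℝ) * ((p : ℝ) - 1)) +
      (if h = h' then 1 / ((p : ℝ) - 1) else 0) := by
  unfold QQ
  rw [Fintype.sum_option, Fintype.sum_option]
  have hn : ∑ y : ι, MP m p none (some y) * TT p none (some h) * TT p (some y) (some h') =
      -(1 / ((p : ℝ) - 1) * (1 / (p : ℝ))) := by
    rw [Finset.sum_eq_single h']
    · simp only [MP, TT, if_neg hm', if_true]; ring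
    · intro x _ hx
      simp only [TT, if_neg hx, mul_zero]
    · intro hh
      exact absurd (mem_univ h') hh
  have h0 : ∀ x : ι, x ≠ h →
      ∑ y : Option ι, MP m p (some x) y * TT p (some x) (some h) * TT p y (some h') = 0 := by
    intro x hx
    refine Finset.sum_eq_zero fun y _ => ?_
    simp only [TT, if_neg hx, mul_zero, zero_mul]
  have hs : ∑ x : ι, ∑ y : Option ι,
      MP m p (some x) y * TT p (some x) (some h) * TT p y (some h') =
      ∑ y : Option ι, MP m p (some h) y * TT p (some h) (some h) * TT p y (some h') := by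
    rw [Finset.sum_eq_single h]
    · intro x _ hx
      exact h0 x hx
    · intro hh
      exact absurd (mem_univ h) hh
  have hh : ∑ y : Option ι, MP m p (some h) y * TT p (some h) (some h) * TT p y (some h') =
      -(1 / ((p : ℝ) - 1) * (1 / (p : ℝ))) + (if h = h' then 1 / ((p : ℝ) - 1) else 0) := by
    rw [Fintype.sum_option]
    have h2 : ∑ y : ι, MP m p (some h) (some y) * TT p (some h) (some h) *
        TT p (some y) (some h') = if h = h' then 1 / ((p : ℝ) - 1) else 0 := by
      rw [Finset.sum_eq_single h']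
      · by_cases he : h = h'
        · subst he
          simp [MP, TT, hm]
        · simp [MP, TT, he]
      · intro x _ hx
        simp only [TT, if_neg hx, mul_zero]
      · intro hh
        exact absurd (mem_univ h') hh
    rw [h2]
    congr 1
    simp only [MP, TT, if_neg hm, if_true]
    ring
  rw [hn, hs, hh]
  simp only [MP, TT]
  have e1 : (2 : ℝ) / ((p : ℝ) * ((p : ℝ) - 1)) = 2 * (1 / ((p : ℝ) - 1) * (1 / (p : ℝ))) := by
    rw [one_div_mul_one_div]
    rw [mul_comm ((p : ℝ) - 1), ← mul_div_assoc, mul_one]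
  have e2 : (1 : ℝ) / (p : ℝ) ^ 2 = 1 / p * (1 / p) := by
    rw [one_div_mul_one_div, sq]
  rw [e1, e2]
  ring

private theorem local_bound (m : ι) (p : ℕ) (hp : p.Prime) (o o' : Option ι) :
    |Qr m p o o' - DL m p o o'| ≤ BN p o o' := by
  have hp2 : (2 : ℝ) ≤ p := by exact_mod_cast hp.two_le
  have hp0 : (0 : ℝ) < p := by linarith
  have hp1 : (0 : ℝ) < (p : ℝ) - 1 := by linarith
  have k1 : 1 / ((p : ℝ) * ((p : ℝ) - 1)) ≤ 2 / (p : ℝ) ^ 2 := by
    rw [div_le_div_iff₀ (by positivity) (by positivity)]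
    nlinarith
  have k2 : 0 < 1 / ((p : ℝ) * ((p : ℝ) - 1)) := by positivity
  have k3 : 1 / (p : ℝ) - 1 / ((p : ℝ) - 1) = -(1 / ((p : ℝ) * ((p : ℝ) - 1))) := by
    field_simp
    ring
  have k4 : 0 < 1 / (p : ℝ) ^ 2 := by positivity
  have k5 : 1 / (p : ℝ) ^ 2 ≤ 1 / ((p : ℝ) * ((p : ℝ) - 1)) := by
    rw [div_le_div_iff₀ (by positivity) (by positivity)]
    nlinarith
  have k6 : 2 / (p : ℝ) ^ 2 = 2 * (1 / (p : ℝ) ^ 2) := by ring
  have k7 : 3 / (p : ℝ) ^ 2 = 3 * (1 / (p : ℝ) ^ 2) := by ring
  have k8 : 2 / ((p : ℝ) * ((p : ℝ) - 1)) = 2 * (1 / ((p : ℝ) * ((p : ℝ) - 1))) := by ring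
  cases o with
  | none =>
    cases o' with
    | none =>
      unfold Qr
      rw [if_pos ⟨by simp, by simp⟩, QQ_nn]
      simp [DL, BN]
    | some h =>
      unfold Qr
      by_cases hm : h = m
      · rw [if_neg (by simp [hm])]
        simp only [DL, BN, sub_zero, abs_zero]
        positivity
      · rw [if_pos ⟨by simp, by simpa using hm⟩, QQ_ns m p h hm]
        simp only [DL, BN, sub_zero]
        rw [k3, abs_neg, abs_of_pos k2]
        exact k1
  | some h =>
    cases o' with
    | none =>
      unfold Qr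
      by_cases hm : h = m
      · rw [if_neg (by simp [hm])]
        simp only [DL, BN, sub_zero, abs_zero]
        positivity
      · rw [if_pos ⟨by simpa using hm, by simp⟩, QQ_sn m p h hm]
        simp only [DL, BN, sub_zero]
        rw [k3, abs_neg, abs_of_pos k2]
        exact k1
    | some h' =>
      unfold Qr
      by_cases hm : h = m
      · rw [if_neg (by simp [hm])]
        simp only [DL, BN]
        rw [if_neg (by simp [hm]), sub_zero, abs_zero]
        positivity
      · by_cases hm' : h' = m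
        · rw [if_neg (by simp [hm'])]
          simp only [DL, BN]
          rw [if_neg (by
            rintro ⟨h1, _⟩
            exact hm (h1.trans hm')), sub_zero, abs_zero]
          positivity
        · rw [if_pos ⟨by simpa using hm, by simpa using hm'⟩, QQ_ss m p h h' hm hm']
          simp only [DL, BN]
          by_cases he : h = h'
          · rw [if_pos he, if_pos ⟨he, hm⟩, k7, k8]
            rw [abs_le]
            constructor <;> linarith
          · rw [if_neg he, if_neg (by rintro ⟨h1, _⟩; exact he h1), k7, k8]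
            rw [abs_le]
            constructor <;> linarith

private theorem sum_DL (m : ι) (p : ℕ) :
    ∑ o, ∑ o', |DL m p o o'| = 1 + ((Fintype.card ι - 1 : ℕ) : ℝ) / p := by
  rw [Fintype.sum_option, Fintype.sum_option]
  have h0 : ∀ h : ι, ∑ o' : Option ι, |DL m p (some h) o'| =
      if h ≠ m then 1 / (p : ℝ) else 0 := by
    intro h
    rw [Fintype.sum_option]
    have h1 : ∑ h' : ι, |DL m p (some h) (some h')| = if h ≠ m then 1 / (p : ℝ) else 0 := by
      rw [Finset.sum_eq_single h]
      · by_cases hm : h = m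
        · simp [DL, hm]
        · simp [DL, hm]
      · intro x _ hx
        have : ¬ (h = x ∧ h ≠ m) := fun hh => hx hh.1.symm
        simp only [DL, if_neg this, abs_zero]
      · intro hh
        exact absurd (mem_univ h) hh
    rw [h1]
    simp [DL]
  rw [Finset.sum_congr rfl fun h _ => h0 h, ← Finset.sum_filter, Finset.sum_const,
    Finset.filter_ne', Finset.card_erase_of_mem (mem_univ m), Finset.card_univ, nsmul_eq_mul]
  simp only [DL, abs_one, abs_zero, Finset.sum_const_zero, add_zero]
  ring

private theorem sum_BN (p : ℕ) :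
    ∑ o : Option ι, ∑ o' : Option ι, BN p o o' =
      ((3 * Fintype.card ι ^ 2 + 4 * Fintype.card ι : ℕ) : ℝ) / (p : ℝ) ^ 2 := by
  rw [Fintype.sum_option, Fintype.sum_option]
  have h0 : ∀ h : ι, ∑ o' : Option ι, BN p (some h) o' =
      2 / (p : ℝ) ^ 2 + Fintype.card ι * (3 / (p : ℝ) ^ 2) := by
    intro h
    rw [Fintype.sum_option]
    simp only [BN, Finset.sum_const, Finset.card_univ, nsmul_eq_mul]
  rw [Finset.sum_congr rfl fun h _ => h0 h]
  simp only [BN, Finset.sum_const, Finset.card_univ, nsmul_eq_mul]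
  push_cast
  ring

end Loc

/-! ### the theorem -/

theorem hFrm : StFrm := by
  intro α ι _ _ _ _ pr m Y Y' B B' hpr hY hY' hsY hsY'
  have hB : 0 ≤ B := (abs_nonneg _).trans (hY fun _ => none)
  have hB' : 0 ≤ B' := (abs_nonneg _).trans (hY' fun _ => none)
  -- the change of variables
  have e1 : ∑ b, ∑ b', (∏ i, MP m (pr i) (b i) (b' i)) * (lam pr Y b * lam pr Y' b') =
      ∑ a : α → Option ι, ∑ a' : α → Option ι,
        (∏ i, QQ m (pr i) (a i) (a' i)) * (Y a * Y' a') := by
    have h := var2_FRM (fun i => MP m (pr i)) (fun i => TT (pr i)) Y Y'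
    exact h
  -- products for assignments avoiding `m`
  have hav : ∀ a : α → Option ι, Avd {m} a → ∀ i, a i ≠ some m := fun a ha i =>
    ha i m (mem_singleton_self m)
  have e2 : ∀ a a' : α → Option ι, (∏ i, QQ m (pr i) (a i) (a' i)) * (Y a * Y' a') =
      (∏ i, Qr m (pr i) (a i) (a' i)) * (Y a * Y' a') := by
    intro a a'
    by_cases h0 : Y a * Y' a' = 0
    · rw [h0, mul_zero, mul_zero]
    · have h1 := left_ne_zero_of_mul h0
      have h2 := right_ne_zero_of_mul h0
      congr 1
      refine prod_congr rfl fun i _ => ?_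
      unfold Qr
      rw [if_pos ⟨hav a (hsY a h1) i, hav a' (hsY' a' h2) i⟩]
  have e3 : ∀ a a' : α → Option ι, (∏ i, DL m (pr i) (a i) (a' i)) * (Y a * Y' a') =
      if a = a' then Y a * Y' a' / szA pr a else 0 := by
    intro a a'
    by_cases h0 : Y a * Y' a' = 0
    · rw [h0, mul_zero, zero_div, ite_self]
    · have h1 := left_ne_zero_of_mul h0
      by_cases he : a = a'
      · subst he
        rw [if_pos rfl]
        have h3 : ∏ i, DL m (pr i) (a i) (a i) = ((szA pr a : ℕ) : ℝ)⁻¹ := by
          unfold szA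
          rw [Nat.cast_prod, ← Finset.prod_inv_distrib]
          refine prod_congr rfl fun i _ => ?_
          have h4 := hav a (hsY a h1) i
          cases h5 : a i with
          | none => simp [DL]
          | some h =>
            have h6 : h ≠ m := by
              intro hh
              rw [h5, hh] at h4
              exact h4 rfl
            simp [DL, h6]
        rw [h3]
        ring
      · rw [if_neg he]
        obtain ⟨i, hi⟩ : ∃ i, a i ≠ a' i := by
          by_contra hcon
          push Not at hcon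
          exact he (funext hcon)
        have h3 : DL m (pr i) (a i) (a' i) = 0 := by
          cases h5 : a i with
          | none =>
            cases h6 : a' i with
            | none => rw [h5, h6] at hi; exact absurd rfl hi
            | some h' => rfl
          | some h =>
            cases h6 : a' i with
            | none => rfl
            | some h' =>
              have h7 : ¬ (h = h' ∧ h ≠ m) := by
                rintro ⟨hh, _⟩
                rw [h5, h6, hh] at hi
                exact hi rfl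
              simp only [DL, if_neg h7]
        rw [Finset.prod_eq_zero (mem_univ i) h3, zero_mul]
  have e4 : ∑ a, Y a * Y' a / szA pr a =
      ∑ a : α → Option ι, ∑ a' : α → Option ι,
        (∏ i, DL m (pr i) (a i) (a' i)) * (Y a * Y' a') := by
    refine sum_congr rfl fun a _ => ?_
    rw [Finset.sum_congr rfl fun a' _ => e3 a a', Finset.sum_ite_eq, if_pos (mem_univ a)]
  rw [e1, e4, ← Finset.sum_sub_distrib]
  have e5 : ∀ a : α → Option ι,
      ∑ a' : α → Option ι, (∏ i, QQ m (pr i) (a i) (a' i)) * (Y a * Y' a') -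
      ∑ a' : α → Option ι, (∏ i, DL m (pr i) (a i) (a' i)) * (Y a * Y' a') =
      ∑ a' : α → Option ι, (∏ i, Qr m (pr i) (a i) (a' i) - ∏ i, DL m (pr i) (a i) (a' i)) *
        (Y a * Y' a') := by
    intro a
    rw [← Finset.sum_sub_distrib]
    refine sum_congr rfl fun a' _ => ?_
    rw [e2 a a', sub_mul]
  rw [Finset.sum_congr rfl fun a _ => e5 a]
  -- absolute values
  have e6 : |∑ a : α → Option ι, ∑ a' : α → Option ι,
      (∏ i, Qr m (pr i) (a i) (a' i) - ∏ i, DL m (pr i) (a i) (a' i)) * (Y a * Y' a')| ≤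
      ∑ a : α → Option ι, ∑ a' : α → Option ι,
        B * B' * (∏ i, (|DL m (pr i) (a i) (a' i)| + BN (pr i) (a i) (a' i)) -
          ∏ i, |DL m (pr i) (a i) (a' i)|) := by
    refine (abs_sum_le_sum_abs _ _).trans (sum_le_sum fun a _ => ?_)
    refine (abs_sum_le_sum_abs _ _).trans (sum_le_sum fun a' _ => ?_)
    rw [abs_mul, mul_comm]
    have h1 : |Y a * Y' a'| ≤ B * B' := by
      rw [abs_mul]
      exact mul_le_mul (hY a) (hY' a') (abs_nonneg _) hB
    have h2 := abs_prod_FRM (univ : Finset α) (fun i => DL m (pr i) (a i) (a' i))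
      (fun i => Qr m (pr i) (a i) (a' i) - DL m (pr i) (a i) (a' i))
    have h3 : ∏ i, (DL m (pr i) (a i) (a' i) +
        (Qr m (pr i) (a i) (a' i) - DL m (pr i) (a i) (a' i))) =
        ∏ i, Qr m (pr i) (a i) (a' i) := prod_congr rfl fun i _ => by ring
    rw [h3] at h2
    have h4 : ∏ i, (|DL m (pr i) (a i) (a' i)| +
        |Qr m (pr i) (a i) (a' i) - DL m (pr i) (a i) (a' i)|) ≤
        ∏ i, (|DL m (pr i) (a i) (a' i)| + BN (pr i) (a i) (a' i)) := by
      refine prod_le_prod (fun i _ => add_nonneg (abs_nonneg _) (abs_nonneg _)) fun i _ => ?_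
      exact add_le_add le_rfl (local_bound m (pr i) (hpr i) (a i) (a' i))
    have h5 : |∏ i, Qr m (pr i) (a i) (a' i) - ∏ i, DL m (pr i) (a i) (a' i)| ≤
        ∏ i, (|DL m (pr i) (a i) (a' i)| + BN (pr i) (a i) (a' i)) -
          ∏ i, |DL m (pr i) (a i) (a' i)| := h2.trans (sub_le_sub h4 le_rfl)
    exact mul_le_mul h1 h5 (abs_nonneg _) (mul_nonneg hB hB')
  refine e6.trans (le_of_eq ?_)
  have e7 : ∀ a : α → Option ι, ∑ a' : α → Option ι,
      B * B' * (∏ i, (|DL m (pr i) (a i) (a' i)| + BN (pr i) (a i) (a' i)) -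
          ∏ i, |DL m (pr i) (a i) (a' i)|) =
      B * B' * (∑ a' : α → Option ι, ∏ i, (|DL m (pr i) (a i) (a' i)| +
        BN (pr i) (a i) (a' i)) - ∑ a' : α → Option ι, ∏ i, |DL m (pr i) (a i) (a' i)|) := by
    intro a
    rw [← Finset.mul_sum, Finset.sum_sub_distrib]
  rw [Finset.sum_congr rfl fun a _ => e7 a, ← Finset.mul_sum, Finset.sum_sub_distrib]
  congr 1
  have p1 := prod_sum2_FRM (κ := Option ι)
    (fun (i : α) o o' => |DL m (pr i) o o'| + BN (pr i) o o')
  have p2 := prod_sum2_FRM (κ := Option ι) (fun (i : α) o o' => |DL m (pr i) o o'|)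
  rw [← p1, ← p2]
  unfold Er
  congr 1
  · refine prod_congr rfl fun i _ => ?_
    rw [← sum_BN (ι := ι) (pr i)]
    rw [← sum_DL m (pr i), ← Finset.sum_add_distrib]
    refine sum_congr rfl fun o _ => ?_
    rw [Finset.sum_add_distrib]
  · exact prod_congr rfl fun i _ => sum_DL m (pr i)

end Pool.Agent.Helper27.BG
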